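import Mathlib

/-! Baire category for convergence of a one-parameter family of functions. -/

set_option autoImplicit false

namespace Pool.Agent.Q205.Baire

open Filter Topology Set

variable {M : Type*} [TopologicalSpace M]

/-- `B T g` is right-continuous in `T`, and for every `g` it is continuous at `g` for `T'` arbitrarily
close to the right of any `T > 0` -/
structure Nice (B : ℝ → M → ℝ) : Prop where
  right : ∀ g, ∀ T : ℝ, 0 < T → ContinuousWithinAt (fun T => B T g) (Ici T) T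
  cont : ∀ g, ∀ T : ℝ, 0 < T → ∀ δ : ℝ, 0 < δ → ∃ T', T ≤ T' ∧ T' < T + δ ∧ ContinuousAt (B T') g

/-- the set where the deviation is at most `ε` from time `T0` on -/
def F (B : ℝ → M → ℝ) (c ε T0 : ℝ) : Set M := {g | ∀ T, T0 ≤ T → |B T g - c| ≤ ε}

theorem isClosed_F {B : ℝ → M → ℝ} (hB : Nice B) (c ε : ℝ) {T0 : ℝ} (hT0 : 0 < T0) :
    IsClosed (F B c ε T0) := by
  rw [← isOpen_compl_iff, isOpen_iff_mem_nhds]
  intro g hg
  have hg' : ∃ T, T0 ≤ T ∧ ε < |B T g - c| := by
    by_contra h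
    push_neg at h
    exact hg h
  obtain ⟨T, hT, hdev⟩ := hg'
  have hTpos : 0 < T := lt_of_lt_of_le hT0 hT
  have h1 : ContinuousWithinAt (fun T => |B T g - c|) (Ici T) T :=
    ((hB.right g T hTpos).sub continuousWithinAt_const).abs
  have h2 : ∀ᶠ S in 𝓝[≥] T, ε < |B S g - c| := h1.eventually (lt_mem_nhds hdev)
  rw [eventually_iff, mem_nhdsGE_iff_exists_Ico_subset] at h2
  obtain ⟨u, hu, hsub⟩ := h2
  obtain ⟨T', hT1, hT2, hc⟩ := hB.cont g T hTpos (u - T) (sub_pos.2 hu)
  have h3 : ε < |B T' g - c| := hsub ⟨hT1, by linarith⟩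
  have h4 : ContinuousAt (fun g => |B T' g - c|) g := (hc.sub continuousAt_const).abs
  have h5 : ∀ᶠ g' in 𝓝 g, ε < |B T' g' - c| := h4.eventually (lt_mem_nhds h3)
  filter_upwards [h5] with g' hg'
  intro hF
  exact absurd (hF T' (hT.trans hT1)) (not_le.2 hg')

/-- the local uniform property -/
def LocUnif (B : ℝ → M → ℝ) (c : ℝ) : Prop :=
  ∀ ε : ℝ, 0 < ε → ∀ U : Set M, IsOpen U → U.Nonempty →
    ∃ V : Set M, IsOpen V ∧ V.Nonempty ∧ V ⊆ U ∧ ∃ T0 : ℝ, ∀ g ∈ V, ∀ T, T0 ≤ T → |B T g - c| ≤ ε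

theorem F_mono (B : ℝ → M → ℝ) (c ε : ℝ) {T0 T1 : ℝ} (h : T0 ≤ T1) : F B c ε T0 ⊆ F B c ε T1 :=
  fun _ hg T hT => hg T (h.trans hT)

theorem residual_of_locUnif {B : ℝ → M → ℝ} {c : ℝ} (h : LocUnif B c) :
    ∀ᶠ g in residual M, Tendsto (fun T => B T g) atTop (𝓝 c) := by
  have key : ∀ n : ℕ, ∀ᶠ g in residual M, ∀ᶠ T in atTop, |B T g - c| ≤ 1 / ((n : ℝ) + 1) := by
    intro n
    have hpos : (0 : ℝ) < 1 / ((n : ℝ) + 1) := by positivity
    have hd : Dense (⋃ m : ℕ, interior (F B c (1 / ((n : ℝ) + 1)) m)) := by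
      rw [dense_iff_inter_open]
      intro U hU hne
      obtain ⟨V, hV, hVne, hVU, T0, hT0⟩ := h _ hpos U hU hne
      obtain ⟨m, hm⟩ := exists_nat_ge T0
      obtain ⟨g, hg⟩ := hVne
      refine ⟨g, hVU hg, mem_iUnion.2 ⟨m, ?_⟩⟩
      have hsub : V ⊆ F B c (1 / ((n : ℝ) + 1)) m := fun g' hg' T hT => hT0 g' hg' T (hm.trans hT)
      exact interior_maximal hsub hV hg
    have ho : IsOpen (⋃ m : ℕ, interior (F B c (1 / ((n : ℝ) + 1)) m)) :=
      isOpen_iUnion fun _ => isOpen_interior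
    filter_upwards [residual_of_dense_open ho hd] with g hg
    obtain ⟨m, hm⟩ := mem_iUnion.1 hg
    have := interior_subset hm
    filter_upwards [eventually_ge_atTop (m : ℝ)] with T hT using this T hT
  have hall : ∀ᶠ g in residual M, ∀ n : ℕ, ∀ᶠ T in atTop, |B T g - c| ≤ 1 / ((n : ℝ) + 1) :=
    eventually_countable_forall.2 key
  filter_upwards [hall] with g hg
  rw [Metric.tendsto_nhds]
  intro ε hε
  obtain ⟨n, hn⟩ := exists_nat_one_div_lt hε
  filter_upwards [hg n] with T hT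
  rw [Real.dist_eq]
  exact lt_of_le_of_lt hT hn

/-- generic failure from a somewhere dense set of failures -/
theorem frequently_of_dense {B : ℝ → M → ℝ} (hB : Nice B) (c ε : ℝ) (D : Set M)
    (hD : ∀ g ∈ D, ∃ᶠ T in atTop, ε < |B T g - c|) :
    ∀ᶠ g in residual M, g ∈ interior (closure D) → ∃ᶠ T in atTop, ε < |B T g - c| := by
  have key : ∀ n : ℕ, ∀ᶠ g in residual M, g ∈ interior (closure D) → g ∉ F B c ε ((n : ℝ) + 1) := by
    intro n
    set Fn := F B c ε ((n : ℝ) + 1) with hFn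
    have hcl : IsClosed Fn := isClosed_F hB c ε (by positivity)
    -- the open set Fnᶜ ∪ (closure D)ᶜ ... is dense up to the interior
    have ho : IsOpen (Fnᶜ ∪ (closure (interior (closure D)))ᶜ) :=
      hcl.isOpen_compl.union isClosed_closure.isOpen_compl
    have hd : Dense (Fnᶜ ∪ (closure (interior (closure D)))ᶜ) := by
      rw [dense_iff_inter_open]
      intro W hW hne
      by_cases hWD : (W ∩ interior (closure D)).Nonempty
      · obtain ⟨g, hgW, hgD⟩ := hWD
        have hgc : g ∈ closure D := interior_subset hgD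
        rw [mem_closure_iff] at hgc
        obtain ⟨g', ⟨hg'W, _⟩, hg'D⟩ := hgc (W ∩ interior (closure D)) (hW.inter isOpen_interior)
          ⟨hgW, hgD⟩
        refine ⟨g', hg'W, Or.inl ?_⟩
        intro hF
        obtain ⟨T, hT, hdev⟩ := (frequently_atTop.1 (hD g' hg'D)) ((n : ℝ) + 1)
        exact absurd (hF T hT) (not_le.2 hdev)
      · obtain ⟨g, hg⟩ := hne
        refine ⟨g, hg, Or.inr ?_⟩
        intro hcl'
        rw [mem_closure_iff] at hcl'
        exact hWD (hcl' W hW hg)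
    filter_upwards [residual_of_dense_open ho hd] with g hg hgD hgF
    rcases hg with h | h
    · exact h hgF
    · exact h (subset_closure hgD)
  have hall := eventually_countable_forall.2 key
  filter_upwards [hall] with g hg hgD
  rw [frequently_atTop]
  intro a
  obtain ⟨n, hn⟩ := exists_nat_ge a
  have h1 := hg n hgD
  have h2 : ∃ T, ((n : ℝ) + 1) ≤ T ∧ ε < |B T g - c| := by
    by_contra h
    push_neg at h
    exact h1 h
  obtain ⟨T, hT, hdev⟩ := h2
  exact ⟨T, by linarith, hdev⟩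

/-- failure of the local uniform property is generic on an open set -/
theorem exists_open_of_not_locUnif {B : ℝ → M → ℝ} (hB : Nice B) {c : ℝ} (h : ¬ LocUnif B c) :
    ∃ ε : ℝ, 0 < ε ∧ ∃ U : Set M, IsOpen U ∧ U.Nonempty ∧
      ∀ᶠ g in residual M, g ∈ U → ∃ᶠ T in atTop, ε < |B T g - c| := by
  unfold LocUnif at h
  push_neg at h
  obtain ⟨ε, hε, U, hU, hne, hV⟩ := h
  refine ⟨ε, hε, U, hU, hne, ?_⟩
  have key : ∀ n : ℕ, ∀ᶠ g in residual M, g ∈ U → g ∉ F B c ε ((n : ℝ) + 1) := by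
    intro n
    set Fn := F B c ε ((n : ℝ) + 1) with hFn
    have hcl : IsClosed Fn := isClosed_F hB c ε (by positivity)
    have ho : IsOpen (Fnᶜ ∪ (closure U)ᶜ) :=
      hcl.isOpen_compl.union isClosed_closure.isOpen_compl
    have hd : Dense (Fnᶜ ∪ (closure U)ᶜ) := by
      rw [dense_iff_inter_open]
      intro W hW hWne
      by_cases hWU : (W ∩ U).Nonempty
      · obtain ⟨g, hg, T, hT, hdev⟩ := hV (W ∩ U) (hW.inter hU) hWU inter_subset_right ((n : ℝ) + 1)
        refine ⟨g, hg.1, Or.inl ?_⟩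
        intro hF
        exact absurd (hF T hT) (not_le.2 hdev)
      · obtain ⟨g, hg⟩ := hWne
        refine ⟨g, hg, Or.inr ?_⟩
        intro hcl'
        rw [mem_closure_iff] at hcl'
        exact hWU (hcl' W hW hg)
    filter_upwards [residual_of_dense_open ho hd] with g hg hgU hgF
    rcases hg with h | h
    · exact h hgF
    · exact h (subset_closure hgU)
  have hall := eventually_countable_forall.2 key
  filter_upwards [hall] with g hg hgU
  rw [frequently_atTop]
  intro a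
  obtain ⟨n, hn⟩ := exists_nat_ge a
  have h1 := hg n hgU
  have h2 : ∃ T, ((n : ℝ) + 1) ≤ T ∧ ε < |B T g - c| := by
    by_contra h
    push_neg at h
    exact h1 h
  obtain ⟨T, hT, hdev⟩ := h2
  exact ⟨T, by linarith, hdev⟩

theorem locUnif_of_residual [BaireSpace M] {B : ℝ → M → ℝ} (hB : Nice B) {c : ℝ}
    (h : ∀ᶠ g in residual M, Tendsto (fun T => B T g) atTop (𝓝 c)) : LocUnif B c := by
  by_contra hn
  obtain ⟨ε, hε, U, hU, hne, hr⟩ := exists_open_of_not_locUnif hB hn
  have hboth := h.and hr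
  have hdense : Dense {g | Tendsto (fun T => B T g) atTop (𝓝 c) ∧
      (g ∈ U → ∃ᶠ T in atTop, ε < |B T g - c|)} := dense_of_mem_residual hboth
  obtain ⟨g, hgU, hg1, hg2⟩ := hdense.inter_open_nonempty U hU hne
  have h1 : ∀ᶠ T in atTop, |B T g - c| < ε := by
    have := (Metric.tendsto_nhds.1 hg1) ε hε
    simpa [Real.dist_eq] using this
  obtain ⟨T, hT1, hT2⟩ := (hg2 hgU |>.and_eventually h1).exists
  linarith

end Pool.Agent.Q205.Baire
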