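import Pool.Agent.Q205.Baire.Spec
import Pool.Agent.Q205.Lim.Int

/-! Joint limit points of all local statistics of a continuous family of spectra. -/

set_option autoImplicit false

namespace Pool.Agent.Q205.Baire

open Filter Topology Set MeasureTheory

variable {M : Type*} [TopologicalSpace M]

section tests

variable {n : ℕ}

/-- the countable family of test functions -/
noncomputable def bas : (ℕ × ℕ) ⊕ ℕ → (Fin n → ℝ) → ℝ
  | Sum.inl p => tf p
  | Sum.inr m => cut m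

theorem bas_cont (t : (ℕ × ℕ) ⊕ ℕ) : Continuous (bas t : (Fin n → ℝ) → ℝ) := by
  rcases t with p | m
  · exact tf_cont p
  · exact cut_cont m

theorem bas_supp (t : (ℕ × ℕ) ⊕ ℕ) : HasCompactSupport (bas t : (Fin n → ℝ) → ℝ) := by
  rcases t with p | m
  · exact tf_supp p
  · exact cut_supp m

theorem exists_radius {f : (Fin n → ℝ) → ℝ} (hf : Continuous f) (hs : HasCompactSupport f) :
    ∃ m : ℕ, ∀ η : ℝ, 0 < η → ∃ k : ℕ, ∀ z : Fin n → ℝ, |f z - tf (k, m) z| ≤ η * cut m z := by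
  obtain ⟨R, hR⟩ := hs.isCompact.isBounded.subset_closedBall (0 : Fin n → ℝ)
  obtain ⟨m, hm⟩ := exists_nat_ge R
  refine ⟨m, fun η hη => ?_⟩
  have hzero : ∀ z : Fin n → ℝ, (m : ℝ) < ‖z‖ → f z = 0 := by
    intro z hz
    by_contra h
    have h1 : z ∈ tsupport f := subset_tsupport f h
    have h2 := hR h1
    rw [mem_closedBall_zero_iff] at h2
    linarith
  let F0 : C(Fin n → ℝ, ℝ) := ⟨f, hf⟩
  have hK : IsCompact (Metric.closedBall (0 : Fin n → ℝ) ((m : ℝ) + 1)) :=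
    isCompact_closedBall _ _
  have hev : ∀ᶠ h : C(Fin n → ℝ, ℝ) in 𝓝 F0,
      ∀ z ∈ Metric.closedBall (0 : Fin n → ℝ) ((m : ℝ) + 1), dist (F0 z) (h z) < η := by
    have h1 := (ContinuousMap.tendsto_iff_forall_isCompact_tendstoUniformlyOn (f := F0)
      (F := fun h : C(Fin n → ℝ, ℝ) => h) (p := 𝓝 F0)).1 tendsto_id _ hK
    exact Metric.tendstoUniformlyOn_iff.1 h1 η hη
  obtain ⟨k, hk⟩ := ((TopologicalSpace.denseRange_denseSeq C(Fin n → ℝ, ℝ)).exists_mem_open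
    isOpen_interior ⟨F0, mem_interior_iff_mem_nhds.2 hev⟩)
  have hk' := interior_subset hk
  refine ⟨k, fun z => ?_⟩
  have hfz : f z = f z * cut m z := by
    by_cases hz : ‖z‖ ≤ m
    · rw [cut_one hz, mul_one]
    · rw [hzero z (not_le.1 hz), zero_mul]
  have h2 : f z - tf (k, m) z
      = (f z - TopologicalSpace.denseSeq C(Fin n → ℝ, ℝ) k z) * cut m z := by
    unfold tf
    rw [sub_mul, ← hfz]
  rw [h2, abs_mul, abs_of_nonneg (cut_nonneg m z)]
  by_cases hz : ‖z‖ ≤ (m : ℝ) + 1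
  · apply mul_le_mul_of_nonneg_right _ (cut_nonneg m z)
    have := hk' z (mem_closedBall_zero_iff.2 hz)
    rw [Real.dist_eq] at this
    exact this.le
  · rw [cut_zero (not_le.1 hz).le, mul_zero, mul_zero]

/-- two basic test functions control a given one -/
theorem approx (X : Spectra M) (L : LocalStat (Fin n → ℝ)) (ν : Measure (Fin n → ℝ))
    [IsFiniteMeasureOnCompacts ν] {f : (Fin n → ℝ) → ℝ} (hf : Continuous f)
    (hs : HasCompactSupport f) {ε : ℝ} (hε : 0 < ε) :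
    ∃ (k m : ℕ) (δ : ℝ), 0 < δ ∧ ∀ (g : M) (T : ℝ), 0 < T →
      |S X L (bas (Sum.inl (k, m))) T g - ∫ z, bas (Sum.inl (k, m)) z ∂ν| < δ →
      |S X L (bas (Sum.inr m)) T g - ∫ z, bas (Sum.inr m) z ∂ν| < δ →
      |S X L f T g - ∫ z, f z ∂ν| < ε := by
  obtain ⟨m, hm⟩ := exists_radius hf hs
  set C : ℝ := ∫ z, cut m z ∂ν with hC
  have hC0 : 0 ≤ C := integral_nonneg fun z => cut_nonneg m z
  set η : ℝ := ε / (4 * (C + 1)) with hη
  have hηpos : 0 < η := by positivity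
  obtain ⟨k, hk⟩ := hm η hηpos
  have hint : |∫ z, f z ∂ν - ∫ z, tf (k, m) z ∂ν| ≤ η * C := by
    rw [← integral_sub (hf.integrable_of_hasCompactSupport hs)
      ((tf_cont (k, m)).integrable_of_hasCompactSupport (tf_supp (k, m)))]
    calc |∫ z, (f z - tf (k, m) z) ∂ν| ≤ ∫ z, |f z - tf (k, m) z| ∂ν := abs_integral_le_integral_abs
      _ ≤ ∫ z, η * cut m z ∂ν := by
          apply integral_mono_of_nonneg
          · exact ae_of_all _ fun z => abs_nonneg _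
          · exact ((cut_cont m).integrable_of_hasCompactSupport (cut_supp m)).const_mul η
          · exact ae_of_all _ hk
      _ = η * C := by rw [integral_const_mul]
  refine ⟨k, m, min 1 (ε / 4), lt_min one_pos (by positivity), fun g T hT h1 h2 => ?_⟩
  have hsum : |S X L f T g - S X L (tf (k, m)) T g| ≤ η * S X L (cut m) T g := by
    unfold S
    rw [← sub_div, ← Finset.sum_sub_distrib, abs_div, abs_of_pos hT, ← mul_div_assoc]
    apply div_le_div_of_nonneg_right _ hT.le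
    rw [Finset.mul_sum]
    exact (Finset.abs_sum_le_sum_abs _ _).trans (Finset.sum_le_sum fun i _ => hk _)
  have h1' : |S X L (tf (k, m)) T g - ∫ z, tf (k, m) z ∂ν| < ε / 4 :=
    lt_of_lt_of_le h1 (min_le_right _ _)
  have h2' : |S X L (cut m) T g - C| < 1 := lt_of_lt_of_le h2 (min_le_left _ _)
  have h3 : S X L (cut m) T g ≤ C + 1 := by
    have := (abs_lt.1 h2').2
    linarith
  have h5 : η * S X L (cut m) T g ≤ η * (C + 1) := mul_le_mul_of_nonneg_left h3 hηpos.le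
  have h6 : |S X L f T g - ∫ z, f z ∂ν| ≤ |S X L f T g - S X L (tf (k, m)) T g|
      + |S X L (tf (k, m)) T g - ∫ z, tf (k, m) z ∂ν| + |∫ z, f z ∂ν - ∫ z, tf (k, m) z ∂ν| := by
    have e : S X L f T g - ∫ z, f z ∂ν = (S X L f T g - S X L (tf (k, m)) T g)
      + (S X L (tf (k, m)) T g - ∫ z, tf (k, m) z ∂ν)
      - (∫ z, f z ∂ν - ∫ z, tf (k, m) z ∂ν) := by ring
    rw [e]
    refine (abs_sub _ _).trans ?_
    gcongr
    exact abs_add_le _ _
  have h7 : η * (C + 1) = ε / 4 := by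
    rw [hη]; field_simp
  have h8 : η * C ≤ ε / 4 := by
    have : η * C ≤ η * (C + 1) := mul_le_mul_of_nonneg_left (by linarith) hηpos.le
    linarith
  linarith

end tests

section joint

variable (X : Spectra M) {𝒜 : Type} (d : 𝒜 → ℕ) (L : ∀ a, LocalStat (Fin (d a) → ℝ))

/-- the statistics number `(a, t)` -/
noncomputable def val (t : 𝒜 × ((ℕ × ℕ) ⊕ ℕ)) (T : ℝ) (g : M) : ℝ :=
  S X (L t.1) (bas t.2) T g

/-- basic sets: the statistics of the list are close to given values at some height `T ≥ k + 1` -/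
def Box (l : List ((𝒜 × ((ℕ × ℕ) ⊕ ℕ)) × ℚ)) (r k : ℕ) : Set M :=
  {g | ∃ T : ℝ, (k : ℝ) + 1 ≤ T ∧ ∀ c ∈ l, |val X d L c.1 T g - c.2| < 1 / ((r : ℝ) + 1)}

theorem isOpen_box (l : List ((𝒜 × ((ℕ × ℕ) ⊕ ℕ)) × ℚ)) (r k : ℕ) : IsOpen (Box X d L l r k) := by
  rw [isOpen_iff_mem_nhds]
  rintro g ⟨T, hT, hl⟩
  have hT0 : 0 < T := by
    have : (0 : ℝ) ≤ k := Nat.cast_nonneg k
    linarith
  set N := count X T g with hNdef
  have hN : T < X.x N g := not_le.1 ((lt_count X T g N).not.1 (lt_irrefl _))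
  have hlist : ∀ P : ((𝒜 × ((ℕ × ℕ) ⊕ ℕ)) × ℚ) → ℝ → Prop,
      (∀ c ∈ l, ∀ᶠ T' in 𝓝[>] T, P c T') → ∀ᶠ T' in 𝓝[>] T, ∀ c ∈ l, P c T' := by
    intro P hP
    have := (Set.Finite.eventually_all (l := 𝓝[>] T) (I := {c | c ∈ l}) l.finite_toSet
      (p := P)).2 (fun c hc => hP c hc)
    simpa using this
  have h1 : ∀ᶠ T' in 𝓝[>] T, ∀ c ∈ l,
      |(∑ i ∈ (L c.1.1).I N, bas c.1.2 ((L c.1.1).φ i (fun k => X.x k g))) / T' - c.2|
        < 1 / ((r : ℝ) + 1) := by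
    apply hlist
    intro c hc
    have h2 := hl c hc
    have h3 : ContinuousAt (fun T' : ℝ =>
        |(∑ i ∈ (L c.1.1).I N, bas c.1.2 ((L c.1.1).φ i (fun k => X.x k g))) / T' - c.2|) T :=
      ((continuousAt_const.div continuousAt_id hT0.ne').sub continuousAt_const).abs
    exact mem_nhdsWithin_of_mem_nhds (h3.eventually (gt_mem_nhds h2))
  have h2 : ∀ᶠ T' in 𝓝[>] T, T' < X.x N g :=
    mem_nhdsWithin_of_mem_nhds (gt_mem_nhds hN)
  obtain ⟨T', hT'1, hT'2, hT'3⟩ := (h1.and (h2.and self_mem_nhdsWithin)).exists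
  have hT'4 : T < T' := hT'3
  have hev1 : ∀ᶠ g' in 𝓝 g, T' < X.x N g' := (X.cont N).continuousAt.eventually (lt_mem_nhds hT'2)
  have hev2 : ∀ᶠ g' in 𝓝 g, ∀ k < N, X.x k g' < T' := by
    have : ∀ k ∈ Finset.range N, ∀ᶠ g' in 𝓝 g, X.x k g' < T' := by
      intro k hk
      have hk' : X.x k g ≤ T := (lt_count X T g k).1 (Finset.mem_range.1 hk)
      exact (X.cont k).continuousAt.eventually (gt_mem_nhds (lt_of_le_of_lt hk' hT'4))
    have h := (Finset.eventually_all (Finset.range N)).2 this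
    filter_upwards [h] with g' hg' k hk
    exact hg' k (Finset.mem_range.2 hk)
  have hev : ∀ᶠ g' in 𝓝 g, count X T' g' = N := by
    filter_upwards [hev1, hev2] with g' h1 h2
    rw [hNdef]
    apply count_eq
    intro k
    constructor
    · intro h
      by_contra hk
      have hk' : ¬ k < count X T g := fun h => hk ((lt_count X T g k).1 h)
      have := X.mono g' (not_lt.1 hk')
      simp only at this
      rw [← hNdef] at this
      linarith
    · intro h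
      exact (h2 k ((lt_count X T g k).2 h)).le
  have hx : Continuous (fun g' : M => (fun k => X.x k g' : ℕ → ℝ)) := continuous_pi X.cont
  have h3 : ∀ c ∈ l, ∀ᶠ g' in 𝓝 g,
      |(∑ i ∈ (L c.1.1).I N, bas c.1.2 ((L c.1.1).φ i (fun k => X.x k g'))) / T' - c.2|
        < 1 / ((r : ℝ) + 1) := by
    intro c hc
    have h4 : ContinuousAt (fun g' : M =>
        |(∑ i ∈ (L c.1.1).I N, bas c.1.2 ((L c.1.1).φ i (fun k => X.x k g'))) / T' - c.2|) g := by
      apply Continuous.continuousAt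
      apply Continuous.abs
      apply Continuous.sub _ continuous_const
      apply Continuous.div_const
      exact continuous_finset_sum _ fun i _ => (bas_cont c.1.2).comp (((L c.1.1).cont i).comp hx)
    exact h4.eventually (gt_mem_nhds (hT'1 c hc))
  have h5 : ∀ᶠ g' in 𝓝 g, ∀ c ∈ l,
      |(∑ i ∈ (L c.1.1).I N, bas c.1.2 ((L c.1.1).φ i (fun k => X.x k g'))) / T' - c.2|
        < 1 / ((r : ℝ) + 1) := by
    have := (Set.Finite.eventually_all (l := 𝓝 g) (I := {c | c ∈ l}) l.finite_toSet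
      (p := fun c g' => |(∑ i ∈ (L c.1.1).I N, bas c.1.2 ((L c.1.1).φ i (fun k => X.x k g'))) / T'
        - c.2| < 1 / ((r : ℝ) + 1))).2 (fun c hc => h3 c hc)
    simpa using this
  filter_upwards [hev, h5] with g' h6 h7
  refine ⟨T', by linarith, fun c hc => ?_⟩
  have h8 := h7 c hc
  unfold val S
  rw [h6]
  exact h8

/-- the family `ν` of measures is a limit point, for `T → ∞` and parameters tending to `g`, of all
local statistics together -/
def NearLimit (ν : ∀ a, Measure (Fin (d a) → ℝ)) (g : M) : Prop :=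
  ∀ (n : ℕ) (a : Fin n → 𝒜) (f : ∀ j, (Fin (d (a j)) → ℝ) → ℝ), (∀ j, Continuous (f j)) →
    (∀ j, HasCompactSupport (f j)) → ∀ ε : ℝ, 0 < ε → ∀ T0 : ℝ, ∀ V ∈ 𝓝 g, ∃ g' ∈ V, ∃ T, T0 ≤ T ∧
      ∀ j, |S X (L (a j)) (f j) T g' - ∫ z, f j z ∂(ν (a j))| < ε

/-- the family `ν` of measures is a limit point, for `T → ∞`, of all local statistics of the
parameter `g` together -/
def Limit (ν : ∀ a, Measure (Fin (d a) → ℝ)) (g : M) : Prop :=
  ∀ (n : ℕ) (a : Fin n → 𝒜) (f : ∀ j, (Fin (d (a j)) → ℝ) → ℝ), (∀ j, Continuous (f j)) →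
    (∀ j, HasCompactSupport (f j)) → ∀ ε : ℝ, 0 < ε → ∀ T0 : ℝ, ∃ T, T0 ≤ T ∧
      ∀ j, |S X (L (a j)) (f j) T g - ∫ z, f j z ∂(ν (a j))| < ε

/-- choice of a list of basic statistics -/
theorem exists_list (ν : ∀ a, Measure (Fin (d a) → ℝ)) [∀ a, IsFiniteMeasureOnCompacts (ν a)]
    {n : ℕ} (a : Fin n → 𝒜) (f : ∀ j, (Fin (d (a j)) → ℝ) → ℝ) (hf : ∀ j, Continuous (f j))
    (hs : ∀ j, HasCompactSupport (f j)) {ε : ℝ} (hε : 0 < ε) :
    ∃ (l : List ((𝒜 × ((ℕ × ℕ) ⊕ ℕ)) × ℚ)) (r : ℕ),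
      (∀ c ∈ l, |(∫ z, bas c.1.2 z ∂(ν c.1.1)) - c.2| < 1 / ((r : ℝ) + 1)) ∧
      ∀ (g : M) (T : ℝ), 0 < T → (∀ c ∈ l, |val X d L c.1 T g - c.2| < 1 / ((r : ℝ) + 1)) →
        ∀ j, |S X (L (a j)) (f j) T g - ∫ z, f j z ∂(ν (a j))| < ε := by
  choose k m δ hδ hap using fun j => approx X (L (a j)) (ν (a j)) (hf j) (hs j) hε
  obtain ⟨δ0, hδ0, hδ0'⟩ : ∃ δ0 : ℝ, 0 < δ0 ∧ ∀ j, δ0 ≤ δ j := by
    have h1 : ∀ᶠ x : ℝ in 𝓝[>] 0, ∀ j, x ≤ δ j := by
      rw [eventually_all]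
      intro j
      exact mem_nhdsWithin_of_mem_nhds (Iic_mem_nhds (hδ j))
    obtain ⟨x, hx1, hx2⟩ := (h1.and self_mem_nhdsWithin).exists
    exact ⟨x, hx2, hx1⟩
  obtain ⟨r, hr⟩ := exists_nat_one_div_lt (show (0 : ℝ) < δ0 / 2 by positivity)
  have hr0 : (0 : ℝ) < 1 / ((r : ℝ) + 1) := by positivity
  have hq : ∀ x : ℝ, ∃ q : ℚ, |x - q| < 1 / ((r : ℝ) + 1) := by
    intro x
    obtain ⟨q, hq1, hq2⟩ := exists_rat_btwn (show x - 1 / ((r : ℝ) + 1) < x by linarith)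
    exact ⟨q, by rw [abs_lt]; constructor <;> linarith⟩
  choose q hq using hq
  refine ⟨(List.finRange n).flatMap fun j =>
    [((a j, Sum.inl (k j, m j)), q (∫ z, bas (Sum.inl (k j, m j)) z ∂(ν (a j)))),
     ((a j, Sum.inr (m j)), q (∫ z, bas (Sum.inr (m j)) z ∂(ν (a j))))], r, ?_, ?_⟩
  · intro c hc
    rw [List.mem_flatMap] at hc
    obtain ⟨j, -, hj⟩ := hc
    simp only [List.mem_cons, List.not_mem_nil, or_false] at hj
    rcases hj with rfl | rfl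
    · exact hq _
    · exact hq _
  · intro g T hT hl j
    have hmem : ∀ c ∈ [((a j, (Sum.inl (k j, m j) : (ℕ × ℕ) ⊕ ℕ)),
          q (∫ z, bas (Sum.inl (k j, m j)) z ∂(ν (a j)))),
        ((a j, Sum.inr (m j)), q (∫ z, bas (Sum.inr (m j)) z ∂(ν (a j))))],
        |val X d L c.1 T g - c.2| < 1 / ((r : ℝ) + 1) := by
      intro c hc
      exact hl c (List.mem_flatMap.2 ⟨j, List.mem_finRange j, hc⟩)
    have g1 := hmem _ (by simp : ((a j, (Sum.inl (k j, m j) : (ℕ × ℕ) ⊕ ℕ)),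
          q (∫ z, bas (Sum.inl (k j, m j)) z ∂(ν (a j)))) ∈ _)
    have g2 := hmem _ (by simp : ((a j, (Sum.inr (m j) : (ℕ × ℕ) ⊕ ℕ)),
          q (∫ z, bas (Sum.inr (m j)) z ∂(ν (a j)))) ∈ _)
    have g3 := hq (∫ z, bas (Sum.inl (k j, m j)) z ∂(ν (a j)))
    have g4 := hq (∫ z, bas (Sum.inr (m j)) z ∂(ν (a j)))
    apply hap j g T hT
    · have : |val X d L (a j, Sum.inl (k j, m j)) T g - ∫ z, bas (Sum.inl (k j, m j)) z ∂(ν (a j))|
          < δ0 := by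
        rw [abs_lt] at g1 g3 ⊢
        constructor <;> linarith [g1.1, g1.2, g3.1, g3.2]
      exact lt_of_lt_of_le this (hδ0' j)
    · have : |val X d L (a j, Sum.inr (m j)) T g - ∫ z, bas (Sum.inr (m j)) z ∂(ν (a j))|
          < δ0 := by
        rw [abs_lt] at g2 g4 ⊢
        constructor <;> linarith [g2.1, g2.2, g4.1, g4.2]
      exact lt_of_lt_of_le this (hδ0' j)

/-- a near limit is in the closure of the boxes -/
theorem closure_of_nearLimit (ν : ∀ a, Measure (Fin (d a) → ℝ))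
    {g : M} (h : NearLimit X d L ν g) {l : List ((𝒜 × ((ℕ × ℕ) ⊕ ℕ)) × ℚ)} {r : ℕ}
    (hl : ∀ c ∈ l, |(∫ z, bas c.1.2 z ∂(ν c.1.1)) - c.2| < 1 / ((r : ℝ) + 1)) (k : ℕ) :
    g ∈ closure (Box X d L l r k) := by
  rw [mem_closure_iff_nhds]
  intro V hV
  -- a margin
  obtain ⟨ε, hε, hεl⟩ : ∃ ε : ℝ, 0 < ε ∧
      ∀ c ∈ l, |(∫ z, bas c.1.2 z ∂(ν c.1.1)) - c.2| + ε < 1 / ((r : ℝ) + 1) := by
    have h1 : ∀ᶠ ε : ℝ in 𝓝[>] 0, ∀ c ∈ {c | c ∈ l},
        |(∫ z, bas c.1.2 z ∂(ν c.1.1)) - c.2| + ε < 1 / ((r : ℝ) + 1) := by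
      rw [l.finite_toSet.eventually_all]
      intro c hc
      have h2 : ContinuousAt (fun ε : ℝ => |(∫ z, bas c.1.2 z ∂(ν c.1.1)) - c.2| + ε) 0 := by
        fun_prop
      exact mem_nhdsWithin_of_mem_nhds (h2.eventually (gt_mem_nhds (by simpa using hl c hc)))
    obtain ⟨ε, hε1, hε2⟩ := (h1.and self_mem_nhdsWithin).exists
    exact ⟨ε, hε2, hε1⟩
  obtain ⟨g', hg', T, hT, hj⟩ := h l.length (fun j => (l.get j).1.1) (fun j => bas (l.get j).1.2)
    (fun j => bas_cont _) (fun j => bas_supp _) ε hε (k + 1) V hV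
  refine ⟨g', hg', T, hT, fun c hc => ?_⟩
  obtain ⟨j, rfl⟩ := List.get_of_mem hc
  have h1 := hj j
  have h2 := hεl _ hc
  have h3 : |val X d L (l.get j).1 T g' - ∫ z, bas (l.get j).1.2 z ∂(ν (l.get j).1.1)| < ε := h1
  calc |val X d L (l.get j).1 T g' - ((l.get j).2 : ℝ)|
      ≤ |val X d L (l.get j).1 T g' - ∫ z, bas (l.get j).1.2 z ∂(ν (l.get j).1.1)|
        + |(∫ z, bas (l.get j).1.2 z ∂(ν (l.get j).1.1)) - ((l.get j).2 : ℝ)| :=
        abs_sub_le _ _ _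
    _ < 1 / ((r : ℝ) + 1) := by linarith

theorem nearLimit_of_limit (ν : ∀ a, Measure (Fin (d a) → ℝ)) {g : M} (h : Limit X d L ν g) :
    NearLimit X d L ν g := by
  intro n a f hf hs ε hε T0 V hV
  obtain ⟨T, hT, hj⟩ := h n a f hf hs ε hε T0
  exact ⟨g, mem_of_mem_nhds hV, T, hT, hj⟩

theorem isClosed_nearLimit (ν : ∀ a, Measure (Fin (d a) → ℝ)) :
    IsClosed {g | NearLimit X d L ν g} := by
  rw [← isOpen_compl_iff, isOpen_iff_mem_nhds]
  intro g hg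
  simp only [NearLimit, mem_compl_iff, mem_setOf_eq, not_forall] at hg
  obtain ⟨n, a, f, hf, hs, ε, hε, T0, V, hV, hno⟩ := hg
  obtain ⟨W, hWV, hW, hgW⟩ := mem_nhds_iff.1 hV
  filter_upwards [hW.mem_nhds hgW] with g' hg' hN
  obtain ⟨g'', hg'', T, hT, hj⟩ := hN n a f hf hs ε hε T0 W (hW.mem_nhds hg')
  exact hno ⟨g'', hWV hg'', T, hT, hj⟩

variable [Countable 𝒜]

theorem generic_box : ∀ᶠ g in residual M, ∀ p : List ((𝒜 × ((ℕ × ℕ) ⊕ ℕ)) × ℚ) × ℕ × ℕ,
    g ∈ closure (Box X d L p.1 p.2.1 p.2.2) → g ∈ Box X d L p.1 p.2.1 p.2.2 := by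
  rw [eventually_countable_forall]
  intro p
  have hO := isOpen_box X d L p.1 p.2.1 p.2.2
  filter_upwards [ev_int hO.isClosed_compl] with g hg hcl
  by_contra hno
  have h1 := hg hno
  rw [interior_compl] at h1
  exact h1 hcl

/-- at a generic parameter every near limit is a limit -/
theorem generic_limit : ∀ᶠ g in residual M, ∀ ν : ∀ a, Measure (Fin (d a) → ℝ),
    (∀ a, IsFiniteMeasureOnCompacts (ν a)) → NearLimit X d L ν g → Limit X d L ν g := by
  filter_upwards [generic_box X d L] with g hg ν hν hN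
  intro n a f hf hs ε hε T0
  obtain ⟨l, r, hl, hl2⟩ := exists_list X d L ν a f hf hs hε
  obtain ⟨k, hk⟩ := exists_nat_ge T0
  obtain ⟨T, hT, hc⟩ := hg (l, r, k) (closure_of_nearLimit X d L ν hN hl k)
  have hk0 : (0 : ℝ) ≤ k := Nat.cast_nonneg k
  simp only at hT
  exact ⟨T, by linarith, hl2 g T (by linarith) hc⟩

/-- at a generic parameter every limit is stable -/
theorem generic_stable : ∀ᶠ g in residual M, ∀ ν : ∀ a, Measure (Fin (d a) → ℝ),
    (∀ a, IsFiniteMeasureOnCompacts (ν a)) → Limit X d L ν g →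
    ∀ (n : ℕ) (a : Fin n → 𝒜) (f : ∀ j, (Fin (d (a j)) → ℝ) → ℝ), (∀ j, Continuous (f j)) →
    (∀ j, HasCompactSupport (f j)) → ∀ ε : ℝ, 0 < ε → ∃ V ∈ 𝓝 g, ∀ᶠ g' in residual M, g' ∈ V →
      ∀ T0 : ℝ, ∃ T, T0 ≤ T ∧ ∀ j, |S X (L (a j)) (f j) T g' - ∫ z, f j z ∂(ν (a j))| < ε := by
  have h1 : ∀ᶠ g in residual M, ∀ p : List ((𝒜 × ((ℕ × ℕ) ⊕ ℕ)) × ℚ) × ℕ,
      g ∈ closure (⋂ k, Box X d L p.1 p.2 k) → g ∈ interior (closure (⋂ k, Box X d L p.1 p.2 k)) := by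
    rw [eventually_countable_forall]
    intro p
    exact ev_int isClosed_closure
  filter_upwards [h1] with g hg ν hν hL n a f hf hs ε hε
  obtain ⟨l, r, hl, hl2⟩ := exists_list X d L ν a f hf hs hε
  have hbox : ∀ k, g ∈ Box X d L l r k := by
    intro k
    obtain ⟨ε', hε', hεl⟩ : ∃ ε : ℝ, 0 < ε ∧
        ∀ c ∈ l, |(∫ z, bas c.1.2 z ∂(ν c.1.1)) - c.2| + ε < 1 / ((r : ℝ) + 1) := by
      have h1 : ∀ᶠ ε : ℝ in 𝓝[>] 0, ∀ c ∈ {c | c ∈ l},
          |(∫ z, bas c.1.2 z ∂(ν c.1.1)) - c.2| + ε < 1 / ((r : ℝ) + 1) := by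
        rw [l.finite_toSet.eventually_all]
        intro c hc
        have h2 : ContinuousAt (fun ε : ℝ => |(∫ z, bas c.1.2 z ∂(ν c.1.1)) - c.2| + ε) 0 := by
          fun_prop
        exact mem_nhdsWithin_of_mem_nhds (h2.eventually (gt_mem_nhds (by simpa using hl c hc)))
      obtain ⟨ε, hε1, hε2⟩ := (h1.and self_mem_nhdsWithin).exists
      exact ⟨ε, hε2, hε1⟩
    obtain ⟨T, hT, hj⟩ := hL l.length (fun j => (l.get j).1.1) (fun j => bas (l.get j).1.2)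
      (fun j => bas_cont _) (fun j => bas_supp _) ε' hε' (k + 1)
    refine ⟨T, hT, fun c hc => ?_⟩
    obtain ⟨j, rfl⟩ := List.get_of_mem hc
    have h2 := hεl _ hc
    have h3 : |val X d L (l.get j).1 T g - ∫ z, bas (l.get j).1.2 z ∂(ν (l.get j).1.1)| < ε' := hj j
    calc |val X d L (l.get j).1 T g - ((l.get j).2 : ℝ)|
        ≤ |val X d L (l.get j).1 T g - ∫ z, bas (l.get j).1.2 z ∂(ν (l.get j).1.1)|
          + |(∫ z, bas (l.get j).1.2 z ∂(ν (l.get j).1.1)) - ((l.get j).2 : ℝ)| :=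
          abs_sub_le _ _ _
      _ < 1 / ((r : ℝ) + 1) := by linarith
  refine ⟨interior (closure (⋂ k, Box X d L l r k)),
    isOpen_interior.mem_nhds (hg (l, r) (subset_closure (mem_iInter.2 hbox))), ?_⟩
  filter_upwards [generic_box X d L] with g' hg' hV T0
  obtain ⟨k, hk⟩ := exists_nat_ge T0
  have h2 : g' ∈ closure (Box X d L l r k) :=
    closure_mono (iInter_subset _ k) (interior_subset hV)
  obtain ⟨T, hT, hc⟩ := hg' (l, r, k) h2
  have hk0 : (0 : ℝ) ≤ k := Nat.cast_nonneg k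
  simp only at hT
  exact ⟨T, by linarith, hl2 g' T (by linarith) hc⟩

/-- alternative for a given family of measures -/
theorem alternative (ν : ∀ a, Measure (Fin (d a) → ℝ)) [hν : ∀ a, IsFiniteMeasureOnCompacts (ν a)] :
    ∃ U₁ U₂ : Set M, IsOpen U₁ ∧ IsOpen U₂ ∧ Disjoint U₁ U₂ ∧ Dense (U₁ ∪ U₂) ∧
      (∀ᶠ g in residual M, g ∈ U₁ → Limit X d L ν g) ∧
      ∀ g ∈ U₂, ∃ (n : ℕ) (a : Fin n → 𝒜) (f : ∀ j, (Fin (d (a j)) → ℝ) → ℝ),
        (∀ j, Continuous (f j)) ∧ (∀ j, HasCompactSupport (f j)) ∧ ∃ ε : ℝ, 0 < ε ∧ ∃ T0 : ℝ,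
        ∃ V ∈ 𝓝 g, ∀ g' ∈ V, ∀ T, T0 ≤ T →
          ∃ j, ε ≤ |S X (L (a j)) (f j) T g' - ∫ z, f j z ∂(ν (a j))| := by
  have hcl := isClosed_nearLimit X d L ν
  refine ⟨interior {g | NearLimit X d L ν g}, {g | NearLimit X d L ν g}ᶜ, isOpen_interior,
    hcl.isOpen_compl, ?_, ?_, ?_, ?_⟩
  · exact disjoint_compl_right.mono_left interior_subset
  · have h2 : Dense (frontier {g | NearLimit X d L ν g})ᶜ :=
      interior_eq_empty_iff_dense_compl.1 (interior_frontier hcl)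
    refine h2.mono fun g hg => ?_
    by_cases h : NearLimit X d L ν g
    · left
      by_contra hno
      exact hg ⟨subset_closure h, hno⟩
    · exact Or.inr h
  · filter_upwards [generic_limit X d L] with g hg hU
    exact hg ν hν (interior_subset hU)
  · intro g hg
    simp only [NearLimit, mem_compl_iff, mem_setOf_eq, not_forall] at hg
    obtain ⟨n, a, f, hf, hs, ε, hε, T0, V, hV, hno⟩ := hg
    refine ⟨n, a, f, hf, hs, ε, hε, T0, V, hV, fun g' hg' T hT => ?_⟩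
    by_contra hcon
    push Not at hcon
    exact hno ⟨g', hg', T, hT, hcon⟩

end joint

end Pool.Agent.Q205.Baire
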