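import Mathlib

/-! Cluster points of a sequence of continuous maps at generic points. -/

set_option autoImplicit false

namespace Pool.Agent.Q205.Baire.Limits

open Filter Topology Set

variable {M : Type*} [TopologicalSpace M] {P : Type*} [TopologicalSpace P]

/-- `ν` is a limit point of the sequence `j ↦ μ j g`. -/
def IsLimit {G : Set M} (μ : ℕ → G → P) (g : G) (ν : P) : Prop :=
  ∀ J : ℕ, ∀ O ∈ 𝓝 ν, ∃ j, J ≤ j ∧ μ j g ∈ O

/-- `ν` is a limit point of `μ j g'` as `j → ∞` and `g' → g` at the same time. -/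
def IsJointLimit {G : Set M} (μ : ℕ → G → P) (g : M) (ν : P) : Prop :=
  ∀ J : ℕ, ∀ V ∈ 𝓝 g, ∀ O ∈ 𝓝 ν, ∃ j, J ≤ j ∧ ∃ g' : G, (g' : M) ∈ V ∧ μ j g' ∈ O

theorem exists_open {G : Set M} {μ : ℕ → G → P} (hμ : ∀ j, Continuous (μ j)) (j : ℕ) {O : Set P}
    (hO : IsOpen O) : ∃ U : Set M, IsOpen U ∧ ∀ g : G, (g : M) ∈ U ↔ μ j g ∈ O := by
  obtain ⟨U, hU, hUe⟩ := isOpen_induced_iff.1 (hO.preimage (hμ j))
  refine ⟨U, hU, fun g => ?_⟩
  have := Set.ext_iff.1 hUe g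
  simpa using this

/-- at a generic point every joint limit is a limit -/
theorem generic_joint [SecondCountableTopology P] {G : Set M} (hG : G ∈ residual M)
    {μ : ℕ → G → P} (hμ : ∀ j, Continuous (μ j)) :
    ∀ᶠ g in residual M, ∃ hg : g ∈ G, ∀ ν, IsJointLimit μ g ν → IsLimit μ ⟨g, hg⟩ ν := by
  classical
  set ℬ := TopologicalSpace.countableBasis P with hℬ
  have hcount : ℬ.Countable := TopologicalSpace.countable_countableBasis P
  haveI : Countable ℬ := hcount.to_subtype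
  have hopen : ∀ O : ℬ, IsOpen (O : Set P) := fun O =>
    TopologicalSpace.isOpen_of_mem_countableBasis O.2
  choose U hU hUe using fun (a : ℕ × ℬ) => exists_open hμ a.1 (hopen a.2)
  set W : ℕ × ℬ → Set M := fun a => ⋃ j : {j : ℕ // a.1 ≤ j}, U ((j : ℕ), a.2) with hW
  have hWo : ∀ a, IsOpen (W a) := fun a => isOpen_iUnion fun j => hU _
  have hres : ∀ᶠ g in residual M, ∀ a : ℕ × ℬ, g ∉ frontier (W a) := by
    rw [eventually_countable_forall]
    intro a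
    have hnd : IsOpen (frontier (W a))ᶜ := isClosed_frontier.isOpen_compl
    have hd : Dense (frontier (W a))ᶜ := by
      have := interior_frontier (hWo a).isClosed_compl
      rw [frontier_compl] at this
      exact interior_eq_empty_iff_dense_compl.1 this
    exact residual_of_dense_open hnd hd
  filter_upwards [hG, hres] with g hg hfr
  refine ⟨hg, fun ν hν J O hO => ?_⟩
  obtain ⟨B, hB, hνB, hBO⟩ := (TopologicalSpace.isBasis_countableBasis P).mem_nhds_iff.1 hO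
  set a : ℕ × ℬ := (J, ⟨B, hB⟩) with ha
  have hcl : g ∈ closure (W a) := by
    rw [mem_closure_iff_nhds]
    intro V hV
    obtain ⟨j, hj, g', hg'V, hg'B⟩ := hν J V hV B
      ((TopologicalSpace.isOpen_of_mem_countableBasis hB).mem_nhds hνB)
    refine ⟨g', hg'V, mem_iUnion.2 ⟨⟨j, hj⟩, ?_⟩⟩
    exact (hUe (j, ⟨B, hB⟩) g').2 hg'B
  have hmem : g ∈ W a := by
    by_contra hn
    exact hfr a ⟨hcl, by rwa [(hWo a).interior_eq]⟩
  obtain ⟨⟨j, hj⟩, hgj⟩ := mem_iUnion.1 hmem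
  exact ⟨j, hj, hBO ((hUe (j, ⟨B, hB⟩) ⟨g, hg⟩).1 hgj)⟩

theorem joint_of_limit {G : Set M} {μ : ℕ → G → P} {g : G} {ν : P} (h : IsLimit μ g ν) :
    IsJointLimit μ g ν := fun J V hV O hO => by
  obtain ⟨j, hj, hjO⟩ := h J O hO
  exact ⟨j, hj, g, mem_of_mem_nhds hV, hjO⟩

/-- joint limits are closed under limits of the parameter and of the value -/
theorem joint_closure {G : Set M} {μ : ℕ → G → P} {g : M} {ν : P}
    (h : ∀ V ∈ 𝓝 g, ∀ O ∈ 𝓝 ν, ∃ g' ∈ V, ∃ ν' ∈ O, IsJointLimit μ g' ν') :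
    IsJointLimit μ g ν := by
  intro J V hV O hO
  obtain ⟨g', hg', ν', hν', hJ⟩ := h (interior V) (interior_mem_nhds.2 hV) (interior O)
    (interior_mem_nhds.2 hO)
  exact hJ J V (mem_interior_iff_mem_nhds.1 hg') O (mem_interior_iff_mem_nhds.1 hν')

/-- if outside of an open set `O` there is no joint limit, then `μ j g'` is in `O` for all large `j`
and all `g'` near `g` -/
theorem uniform_of_no_joint [CompactSpace P] {G : Set M} {μ : ℕ → G → P} {g : M} {O : Set P}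
    (hO : IsOpen O) (h : ∀ ν, ν ∉ O → ¬ IsJointLimit μ g ν) :
    ∃ V ∈ 𝓝 g, ∃ J : ℕ, ∀ j, J ≤ j → ∀ g' : G, (g' : M) ∈ V → μ j g' ∈ O := by
  by_contra hcon
  push_neg at hcon
  set F : Filter P := map (fun x : ℕ × G => μ x.1 x.2) (atTop ×ˢ comap Subtype.val (𝓝 g)) ⊓ 𝓟 Oᶜ
    with hF
  haveI : NeBot F := by
    rw [hF, inf_principal_neBot_iff]
    intro s hs
    rw [mem_map, mem_prod_iff] at hs
    obtain ⟨t1, ht1, t2, ht2, hsub⟩ := hs
    obtain ⟨J, hJ⟩ := mem_atTop_sets.1 ht1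
    obtain ⟨V, hV, hVs⟩ := mem_comap.1 ht2
    obtain ⟨j, hj, g', hg', hn⟩ := hcon V hV J
    exact ⟨μ j g', hsub (mk_mem_prod (hJ j hj) (hVs hg')), hn⟩
  obtain ⟨ν, hν⟩ := exists_clusterPt_of_compactSpace F
  have hνO : ν ∉ O := by
    have h1 : ClusterPt ν (𝓟 Oᶜ) := hν.mono inf_le_right
    have h2 := mem_closure_iff_clusterPt.2 h1
    rwa [hO.isClosed_compl.closure_eq] at h2
  apply h ν hνO
  intro J V hV N hN
  have h3 : ClusterPt ν (map (fun x : ℕ × G => μ x.1 x.2) (atTop ×ˢ comap Subtype.val (𝓝 g))) :=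
    hν.mono inf_le_left
  rw [clusterPt_iff_nonempty] at h3
  have h4 : (fun x : ℕ × G => μ x.1 x.2) '' ((Ici J) ×ˢ (Subtype.val ⁻¹' V)) ∈
      map (fun x : ℕ × G => μ x.1 x.2) (atTop ×ˢ comap Subtype.val (𝓝 g)) :=
    image_mem_map (prod_mem_prod (mem_atTop J) (preimage_mem_comap hV))
  obtain ⟨y, hyN, ⟨j, g'⟩, hx, rfl⟩ := h3 hN h4
  exact ⟨j, hx.1, g', hx.2, hyN⟩

/-- every sequence has a limit -/
theorem exists_limit [CompactSpace P] {G : Set M} (μ : ℕ → G → P) (g : G) : ∃ ν, IsLimit μ g ν := by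
  obtain ⟨ν, hν⟩ := exists_clusterPt_of_compactSpace (map (fun j => μ j g) atTop)
  refine ⟨ν, fun J O hO => ?_⟩
  rw [clusterPt_iff_nonempty] at hν
  obtain ⟨y, hy, j, hj, rfl⟩ := hν hO (image_mem_map (mem_atTop J))
  exact ⟨j, hj, hy⟩

/-- limits are closed -/
theorem limit_closed {G : Set M} {μ : ℕ → G → P} {g : G} {ν : P}
    (h : ∀ O ∈ 𝓝 ν, ∃ ν' ∈ O, IsLimit μ g ν') : IsLimit μ g ν := by
  intro J O hO
  obtain ⟨ν', hν', hl⟩ := h (interior O) (interior_mem_nhds.2 hO)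
  exact hl J O (mem_interior_iff_mem_nhds.1 hν')

end Pool.Agent.Q205.Baire.Limits
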