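import Pool.Agent.Q205.Baire.Gen

/-! Local statistics of a continuous family of spectra. -/

set_option autoImplicit false

namespace Pool.Agent.Q205.Baire

open Filter Topology Set MeasureTheory

/-- A continuous family, parametrised by a topological space `M`, of nondecreasing real sequences
tending to infinity (the unfolded levels `x_k(g)`, listed with multiplicity). -/
structure Spectra (M : Type*) [TopologicalSpace M] where
  x : ℕ → M → ℝ
  cont : ∀ k, Continuous (x k)
  mono : ∀ g, Monotone (fun k => x k g)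
  unb : ∀ g, Tendsto (fun k => x k g) atTop atTop

/-- A local statistic with values in `E`: to every number `N` of levels a finite set of indices, and
to every index a continuous function of the sequence of levels. -/
structure LocalStat (E : Type*) [TopologicalSpace E] where
  ι : Type
  I : ℕ → Finset ι
  φ : ι → (ℕ → ℝ) → E
  cont : ∀ i, Continuous (φ i)

variable {M : Type*} [TopologicalSpace M]

/-- number of levels `x_k(g) ≤ T` -/
noncomputable def count (X : Spectra M) (T : ℝ) (g : M) : ℕ := Set.ncard {k : ℕ | X.x k g ≤ T}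

/-- the averaged statistic for the test function `f` -/
noncomputable def S {E : Type*} [TopologicalSpace E] (X : Spectra M) (L : LocalStat E) (f : E → ℝ)
    (T : ℝ) (g : M) : ℝ :=
  (∑ i ∈ L.I (count X T g), f (L.φ i (fun k => X.x k g))) / T

theorem lt_count (X : Spectra M) (T : ℝ) (g : M) (k : ℕ) : k < count X T g ↔ X.x k g ≤ T := by
  classical
  have hex : ∃ n, T < X.x n g := ((X.unb g).eventually (eventually_gt_atTop T)).exists
  have hset : {k : ℕ | X.x k g ≤ T} = (Finset.range (Nat.find hex) : Set ℕ) := by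
    ext j
    simp only [Set.mem_setOf_eq, Finset.coe_range, Set.mem_Iio]
    constructor
    · intro hj
      by_contra hlt
      push_neg at hlt
      have h1 := Nat.find_spec hex
      have h2 := X.mono g hlt
      simp only at h2
      linarith
    · intro hj
      have := Nat.find_min hex hj
      push_neg at this
      exact this
  have hc : count X T g = Nat.find hex := by
    unfold count
    rw [hset, Set.ncard_coe_finset, Finset.card_range]
  rw [hc]
  have := Set.ext_iff.1 hset k
  simp only [Set.mem_setOf_eq, Finset.coe_range, Set.mem_Iio] at this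
  exact this.symm

theorem count_eq (X : Spectra M) {T T' : ℝ} {g g' : M}
    (h : ∀ k, X.x k g ≤ T ↔ X.x k g' ≤ T') : count X T g = count X T' g' := by
  unfold count
  congr 1
  ext k
  exact h k

theorem nice_S {E : Type*} [TopologicalSpace E] (X : Spectra M) (L : LocalStat E) {f : E → ℝ}
    (hf : Continuous f) : Nice (S X L f) := by
  constructor
  · intro g T hT
    have hN : T < X.x (count X T g) g := by
      have := (lt_count X T g (count X T g)).not.1 (lt_irrefl _)
      exact not_le.1 this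
    have hev : ∀ᶠ T' in 𝓝[≥] T, count X T' g = count X T g := by
      have h1 : ∀ᶠ T' in 𝓝[≥] T, T' < X.x (count X T g) g :=
        mem_nhdsWithin_of_mem_nhds (gt_mem_nhds hN)
      filter_upwards [h1, self_mem_nhdsWithin] with T' h1 h2
      apply count_eq
      intro k
      constructor
      · intro h
        by_contra hk
        have hk' : ¬ k < count X T g := fun h => hk ((lt_count X T g k).1 h)
        have := X.mono g (not_lt.1 hk')
        simp only at this
        linarith
      · intro h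
        exact h.trans h2
    have h2 : ContinuousWithinAt (fun T' : ℝ =>
        (∑ i ∈ L.I (count X T g), f (L.φ i (fun k => X.x k g))) / T') (Ici T) T :=
      (continuousAt_const.div continuousAt_id hT.ne').continuousWithinAt
    refine h2.congr_of_eventuallyEq ?_ rfl
    filter_upwards [hev] with T' h
    simp only [S, h]
  · intro g T hT δ hδ
    set N := count X T g with hNdef
    have hN : T < X.x N g := by
      have := (lt_count X T g N).not.1 (lt_irrefl _)
      exact not_le.1 this
    obtain ⟨T', hT1, hT2⟩ := exists_between (lt_min (show T < T + δ by linarith) hN)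
    rw [lt_min_iff] at hT2
    refine ⟨T', hT1.le, hT2.1, ?_⟩
    have hev1 : ∀ᶠ g' in 𝓝 g, T' < X.x N g' := (X.cont N).continuousAt.eventually (lt_mem_nhds hT2.2)
    have hev2 : ∀ᶠ g' in 𝓝 g, ∀ k < N, X.x k g' < T' := by
      have : ∀ k ∈ Finset.range N, ∀ᶠ g' in 𝓝 g, X.x k g' < T' := by
        intro k hk
        have hk' : X.x k g ≤ T := (lt_count X T g k).1 (Finset.mem_range.1 hk)
        exact (X.cont k).continuousAt.eventually (gt_mem_nhds (lt_of_le_of_lt hk' hT1))
      have h := (Finset.eventually_all (Finset.range N)).2 this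
      filter_upwards [h] with g' hg' k hk
      exact hg' k (Finset.mem_range.2 hk)
    have hev : ∀ᶠ g' in 𝓝 g, count X T' g' = N := by
      filter_upwards [hev1, hev2] with g' h1 h2
      rw [hNdef]
      apply count_eq
      intro k
      constructor
      · intro h
        by_contra hk
        have hk' : ¬ k < count X T g := fun h => hk ((lt_count X T g k).1 h)
        have := X.mono g' (not_lt.1 hk')
        simp only at this
        rw [← hNdef] at this
        linarith
      · intro h
        exact (h2 k ((lt_count X T g k).2 h)).le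
    have hx : Continuous (fun g' : M => (fun k => X.x k g' : ℕ → ℝ)) := continuous_pi X.cont
    have h3 : ContinuousAt (fun g' : M =>
        (∑ i ∈ L.I N, f (L.φ i (fun k => X.x k g'))) / T') g := by
      apply ContinuousAt.div_const
      apply Continuous.continuousAt
      exact continuous_finset_sum _ fun i _ => hf.comp ((L.cont i).comp hx)
    refine h3.congr ?_
    filter_upwards [hev] with g' h
    simp only [S, h]

/-! ### countably many test functions suffice -/

section test

variable {n : ℕ}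

/-- cut-off function -/
noncomputable def cut (m : ℕ) (z : Fin n → ℝ) : ℝ := max 0 (min 1 ((m : ℝ) + 1 - ‖z‖))

theorem cut_nonneg (m : ℕ) (z : Fin n → ℝ) : 0 ≤ cut m z := le_max_left _ _

theorem cut_cont (m : ℕ) : Continuous (cut m : (Fin n → ℝ) → ℝ) := by
  unfold cut
  fun_prop

theorem cut_one {m : ℕ} {z : Fin n → ℝ} (h : ‖z‖ ≤ m) : cut m z = 1 := by
  unfold cut
  rw [min_eq_left (by linarith)]
  norm_num

theorem cut_zero {m : ℕ} {z : Fin n → ℝ} (h : (m : ℝ) + 1 ≤ ‖z‖) : cut m z = 0 := by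
  unfold cut
  apply max_eq_left
  exact (min_le_right _ _).trans (by linarith)

theorem cut_supp (m : ℕ) : HasCompactSupport (cut m : (Fin n → ℝ) → ℝ) := by
  apply HasCompactSupport.intro (isCompact_closedBall (0 : Fin n → ℝ) ((m : ℝ) + 1))
  intro z hz
  apply cut_zero
  rw [mem_closedBall_zero_iff] at hz
  linarith

/-- the countable family -/
noncomputable def tf (a : ℕ × ℕ) (z : Fin n → ℝ) : ℝ :=
  TopologicalSpace.denseSeq C(Fin n → ℝ, ℝ) a.1 z * cut a.2 z

theorem tf_cont (a : ℕ × ℕ) : Continuous (tf a : (Fin n → ℝ) → ℝ) :=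
  (TopologicalSpace.denseSeq C(Fin n → ℝ, ℝ) a.1).continuous.mul (cut_cont a.2)

theorem tf_supp (a : ℕ × ℕ) : HasCompactSupport (tf a : (Fin n → ℝ) → ℝ) :=
  (cut_supp a.2).mul_left

theorem exists_tf {f : (Fin n → ℝ) → ℝ} (hf : Continuous f) (hs : HasCompactSupport f) {ε : ℝ}
    (hε : 0 < ε) : ∃ a : ℕ × ℕ, ∀ z, |f z - tf a z| ≤ ε * cut a.2 z := by
  obtain ⟨R, hR⟩ := hs.isCompact.isBounded.subset_closedBall (0 : Fin n → ℝ)
  obtain ⟨m, hm⟩ := exists_nat_ge R
  have hzero : ∀ z : Fin n → ℝ, (m : ℝ) < ‖z‖ → f z = 0 := by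
    intro z hz
    by_contra h
    have h1 : z ∈ tsupport f := subset_tsupport f h
    have h2 := hR h1
    rw [mem_closedBall_zero_iff] at h2
    linarith
  let F0 : C(Fin n → ℝ, ℝ) := ⟨f, hf⟩
  have hK : IsCompact (Metric.closedBall (0 : Fin n → ℝ) ((m : ℝ) + 1)) := isCompact_closedBall _ _
  have hev : ∀ᶠ h : C(Fin n → ℝ, ℝ) in 𝓝 F0, ∀ z ∈ Metric.closedBall (0 : Fin n → ℝ) ((m : ℝ) + 1),
      dist (F0 z) (h z) < ε := by
    have h1 := (ContinuousMap.tendsto_iff_forall_isCompact_tendstoUniformlyOn (f := F0)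
      (F := fun h : C(Fin n → ℝ, ℝ) => h) (p := 𝓝 F0)).1 tendsto_id _ hK
    exact Metric.tendstoUniformlyOn_iff.1 h1 ε hε
  obtain ⟨k, hk⟩ := ((TopologicalSpace.denseRange_denseSeq C(Fin n → ℝ, ℝ)).exists_mem_open
    isOpen_interior ⟨F0, mem_interior_iff_mem_nhds.2 hev⟩)
  have hk' := interior_subset hk
  refine ⟨(k, m), fun z => ?_⟩
  have hfz : f z = f z * cut m z := by
    by_cases hz : ‖z‖ ≤ m
    · rw [cut_one hz, mul_one]
    · rw [hzero z (not_le.1 hz), zero_mul]
  have h2 : f z - tf (k, m) z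
      = (f z - TopologicalSpace.denseSeq C(Fin n → ℝ, ℝ) k z) * cut m z := by
    unfold tf
    rw [sub_mul, ← hfz]
  rw [h2, abs_mul, abs_of_nonneg (cut_nonneg m z)]
  by_cases hz : ‖z‖ ≤ (m : ℝ) + 1
  · apply mul_le_mul_of_nonneg_right _ (cut_nonneg m z)
    have := hk' z (mem_closedBall_zero_iff.2 hz)
    rw [Real.dist_eq] at this
    exact this.le
  · rw [cut_zero (not_le.1 hz).le, mul_zero, mul_zero]

theorem tendsto_of_tf (X : Spectra M) (L : LocalStat (Fin n → ℝ)) (μ : Measure (Fin n → ℝ))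
    [IsFiniteMeasureOnCompacts μ] (g : M)
    (h1 : ∀ a : ℕ × ℕ, Tendsto (fun T => S X L (tf a) T g) atTop (𝓝 (∫ z, tf a z ∂μ)))
    (h2 : ∀ m : ℕ, Tendsto (fun T => S X L (cut m) T g) atTop (𝓝 (∫ z, cut m z ∂μ)))
    {f : (Fin n → ℝ) → ℝ} (hf : Continuous f) (hs : HasCompactSupport f) :
    Tendsto (fun T => S X L f T g) atTop (𝓝 (∫ z, f z ∂μ)) := by
  -- choose one reference cut-off dominating everything
  rw [Metric.tendsto_nhds]
  intro ε hε
  obtain ⟨R, hR⟩ := hs.isCompact.isBounded.subset_closedBall (0 : Fin n → ℝ)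
  -- first a crude choice to know the radius
  have key : ∀ η : ℝ, 0 < η → ∃ a : ℕ × ℕ, ∀ z, |f z - tf a z| ≤ η * cut a.2 z :=
    fun η hη => exists_tf hf hs hη
  -- we need the radius independent of η
  obtain ⟨m, hm⟩ : ∃ m : ℕ, ∀ η : ℝ, 0 < η → ∃ k : ℕ, ∀ z : Fin n → ℝ,
      |f z - tf (k, m) z| ≤ η * cut m z := by
    obtain ⟨m, hm⟩ := exists_nat_ge R
    refine ⟨m, fun η hη => ?_⟩
    have hzero : ∀ z : Fin n → ℝ, (m : ℝ) < ‖z‖ → f z = 0 := by
      intro z hz
      by_contra h
      have h1 : z ∈ tsupport f := subset_tsupport f h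
      have h2 := hR h1
      rw [mem_closedBall_zero_iff] at h2
      linarith
    let F0 : C(Fin n → ℝ, ℝ) := ⟨f, hf⟩
    have hK : IsCompact (Metric.closedBall (0 : Fin n → ℝ) ((m : ℝ) + 1)) :=
      isCompact_closedBall _ _
    have hev : ∀ᶠ h : C(Fin n → ℝ, ℝ) in 𝓝 F0,
        ∀ z ∈ Metric.closedBall (0 : Fin n → ℝ) ((m : ℝ) + 1), dist (F0 z) (h z) < η := by
      have h1 := (ContinuousMap.tendsto_iff_forall_isCompact_tendstoUniformlyOn (f := F0)
        (F := fun h : C(Fin n → ℝ, ℝ) => h) (p := 𝓝 F0)).1 tendsto_id _ hK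
      exact Metric.tendstoUniformlyOn_iff.1 h1 η hη
    obtain ⟨k, hk⟩ := ((TopologicalSpace.denseRange_denseSeq C(Fin n → ℝ, ℝ)).exists_mem_open
      isOpen_interior ⟨F0, mem_interior_iff_mem_nhds.2 hev⟩)
    have hk' := interior_subset hk
    refine ⟨k, fun z => ?_⟩
    have hfz : f z = f z * cut m z := by
      by_cases hz : ‖z‖ ≤ m
      · rw [cut_one hz, mul_one]
      · rw [hzero z (not_le.1 hz), zero_mul]
    have h2 : f z - tf (k, m) z
        = (f z - TopologicalSpace.denseSeq C(Fin n → ℝ, ℝ) k z) * cut m z := by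
      unfold tf
      rw [sub_mul, ← hfz]
    rw [h2, abs_mul, abs_of_nonneg (cut_nonneg m z)]
    by_cases hz : ‖z‖ ≤ (m : ℝ) + 1
    · apply mul_le_mul_of_nonneg_right _ (cut_nonneg m z)
      have := hk' z (mem_closedBall_zero_iff.2 hz)
      rw [Real.dist_eq] at this
      exact this.le
    · rw [cut_zero (not_le.1 hz).le, mul_zero, mul_zero]
  set C : ℝ := ∫ z, cut m z ∂μ with hC
  have hC0 : 0 ≤ C := integral_nonneg fun z => cut_nonneg m z
  set η : ℝ := ε / (2 * (C + 1) + 1) with hη
  have hηpos : 0 < η := by positivity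
  obtain ⟨k, hk⟩ := hm η hηpos
  have hint : |∫ z, f z ∂μ - ∫ z, tf (k, m) z ∂μ| ≤ η * C := by
    rw [← integral_sub (hf.integrable_of_hasCompactSupport hs)
      ((tf_cont (k, m)).integrable_of_hasCompactSupport (tf_supp (k, m)))]
    calc |∫ z, (f z - tf (k, m) z) ∂μ| ≤ ∫ z, |f z - tf (k, m) z| ∂μ := abs_integral_le_integral_abs
      _ ≤ ∫ z, η * cut m z ∂μ := by
          apply integral_mono_of_nonneg
          · exact ae_of_all _ fun z => abs_nonneg _
          · exact ((cut_cont m).integrable_of_hasCompactSupport (cut_supp m)).const_mul η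
          · exact ae_of_all _ hk
      _ = η * C := by rw [integral_const_mul]
  have hsum : ∀ T : ℝ, 0 < T → |S X L f T g - S X L (tf (k, m)) T g| ≤ η * S X L (cut m) T g := by
    intro T hT
    unfold S
    rw [← sub_div, ← Finset.sum_sub_distrib, abs_div, abs_of_pos hT, ← mul_div_assoc]
    apply div_le_div_of_nonneg_right _ hT.le
    rw [Finset.mul_sum]
    exact (Finset.abs_sum_le_sum_abs _ _).trans (Finset.sum_le_sum fun i _ => hk _)
  have e1 := (Metric.tendsto_nhds.1 (h1 (k, m))) η hηpos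
  have e2 := (Metric.tendsto_nhds.1 (h2 m)) 1 one_pos
  filter_upwards [e1, e2, eventually_gt_atTop (0 : ℝ)] with T hT1 hT2 hT0
  rw [Real.dist_eq] at hT1 hT2 ⊢
  have h3 : S X L (cut m) T g ≤ C + 1 := by
    have := (abs_lt.1 hT2).2
    linarith
  have h4 := hsum T hT0
  have h5 : η * S X L (cut m) T g ≤ η * (C + 1) := mul_le_mul_of_nonneg_left h3 hηpos.le
  have h6 : |S X L f T g - ∫ z, f z ∂μ| ≤ |S X L f T g - S X L (tf (k, m)) T g|
      + |S X L (tf (k, m)) T g - ∫ z, tf (k, m) z ∂μ| + |∫ z, f z ∂μ - ∫ z, tf (k, m) z ∂μ| := by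
    have e : S X L f T g - ∫ z, f z ∂μ = (S X L f T g - S X L (tf (k, m)) T g)
      + (S X L (tf (k, m)) T g - ∫ z, tf (k, m) z ∂μ)
      - (∫ z, f z ∂μ - ∫ z, tf (k, m) z ∂μ) := by ring
    rw [e]
    refine (abs_sub _ _).trans ?_
    gcongr
    exact abs_add_le _ _
  have h7 : η * (2 * (C + 1) + 1) = ε := by
    rw [hη]; field_simp
  nlinarith

end test

/-- the good parameters for a family of local statistics and target measures -/
def Good (X : Spectra M) {𝒜 : Type} (d : 𝒜 → ℕ) (L : ∀ a, LocalStat (Fin (d a) → ℝ))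
    (μ : ∀ a, Measure (Fin (d a) → ℝ)) (g : M) : Prop :=
  ∀ a, ∀ f : (Fin (d a) → ℝ) → ℝ, Continuous f → HasCompactSupport f →
    Tendsto (fun T => S X (L a) f T g) atTop (𝓝 (∫ z, f z ∂(μ a)))

theorem main_iff [BaireSpace M] (X : Spectra M) {𝒜 : Type} [Countable 𝒜] (d : 𝒜 → ℕ)
    (L : ∀ a, LocalStat (Fin (d a) → ℝ)) (μ : ∀ a, Measure (Fin (d a) → ℝ))
    [∀ a, IsFiniteMeasureOnCompacts (μ a)] :
    (∀ᶠ g in residual M, Good X d L μ g) ↔
      ∀ a, ∀ f : (Fin (d a) → ℝ) → ℝ, Continuous f → HasCompactSupport f →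
        LocUnif (S X (L a) f) (∫ z, f z ∂(μ a)) := by
  constructor
  · intro h a f hf hs
    apply locUnif_of_residual (nice_S X (L a) hf)
    filter_upwards [h] with g hg
    exact hg a f hf hs
  · intro h
    have h1 : ∀ᶠ g in residual M, ∀ a : 𝒜, ∀ b : ℕ × ℕ,
        Tendsto (fun T => S X (L a) (tf b) T g) atTop (𝓝 (∫ z, tf b z ∂(μ a))) := by
      rw [eventually_countable_forall]
      intro a
      rw [eventually_countable_forall]
      intro b
      exact residual_of_locUnif (h a _ (tf_cont b) (tf_supp b))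
    have h2 : ∀ᶠ g in residual M, ∀ a : 𝒜, ∀ m : ℕ,
        Tendsto (fun T => S X (L a) (cut m) T g) atTop (𝓝 (∫ z, cut m z ∂(μ a))) := by
      rw [eventually_countable_forall]
      intro a
      rw [eventually_countable_forall]
      intro b
      exact residual_of_locUnif (h a _ (cut_cont b) (cut_supp b))
    filter_upwards [h1, h2] with g hg1 hg2
    intro a f hf hs
    exact tendsto_of_tf X (L a) (μ a) g (hg1 a) (hg2 a) hf hs

theorem main_dichotomy [BaireSpace M] (X : Spectra M) {𝒜 : Type} [Countable 𝒜] (d : 𝒜 → ℕ)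
    (L : ∀ a, LocalStat (Fin (d a) → ℝ)) (μ : ∀ a, Measure (Fin (d a) → ℝ))
    [∀ a, IsFiniteMeasureOnCompacts (μ a)] (h : ¬ ∀ᶠ g in residual M, Good X d L μ g) :
    ∃ a, ∃ f : (Fin (d a) → ℝ) → ℝ, Continuous f ∧ HasCompactSupport f ∧ ∃ ε : ℝ, 0 < ε ∧
      ∃ U : Set M, IsOpen U ∧ U.Nonempty ∧ ∀ᶠ g in residual M, g ∈ U →
        ∃ᶠ T in atTop, ε < |S X (L a) f T g - ∫ z, f z ∂(μ a)| := by
  rw [main_iff] at h
  push_neg at h
  obtain ⟨a, f, hf, hs, hn⟩ := h
  obtain ⟨ε, hε, U, hU, hne, hr⟩ := exists_open_of_not_locUnif (nice_S X (L a) hf) hn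
  exact ⟨a, f, hf, hs, ε, hε, U, hU, hne, hr⟩

theorem main_nowhere [BaireSpace M] (X : Spectra M) {n : ℕ} (L : LocalStat (Fin n → ℝ))
    {f : (Fin n → ℝ) → ℝ} (hf : Continuous f) {c ε : ℝ} (hε : 0 < ε)
    (h : ∀ᶠ g in residual M, Tendsto (fun T => S X L f T g) atTop (𝓝 c)) :
    IsNowhereDense {g | ∃ᶠ T in atTop, ε < |S X L f T g - c|} := by
  set D := {g | ∃ᶠ T in atTop, ε < |S X L f T g - c|} with hD
  have h1 := frequently_of_dense (nice_S X L hf) c ε D (fun g hg => hg)
  rw [IsNowhereDense]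
  by_contra hne
  have hne' : (interior (closure D)).Nonempty := Set.nonempty_iff_ne_empty.2 hne
  obtain ⟨g, hgU, hg1, hg2⟩ := (dense_of_mem_residual (h.and h1)).inter_open_nonempty _
    isOpen_interior hne'
  have h3 : ∀ᶠ T in atTop, |S X L f T g - c| < ε := by
    have := (Metric.tendsto_nhds.1 hg1) ε hε
    simpa [Real.dist_eq] using this
  obtain ⟨T, hT1, hT2⟩ := (hg2 hgU |>.and_eventually h3).exists
  linarith

end Pool.Agent.Q205.Baire
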